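import Pool.Agent.Helper74.DR.St

/-!
Project DR (MP_26f0da_lc): module SYM (the rules of the spines).
-/

set_option autoImplicit false

namespace Pool.Agent.Helper87.DR

open Pool.Agent.Helper74.DR

private theorem mid (hNOR : StNOR) (α V : Type) (L : V → Set (List α)) (hBS : BS L) (a : α)
    (w : List α) (SQ : List α → Prop)
    (h : (∃ B, a :: w ∈ L B ∧ ∀ v ∈ L B, SQ v) ∨ ∃ (B₁ B₂ : V) (w₁ w₂ w₃ : List α) (Y : Sy α V)
      (SP : List α → Prop), a :: w = w₁ ++ (w₂ ++ w₃) ∧ w₁ ∈ L B₁ ∧ SP w₂ ∧ w₃ ∈ L B₂ ∧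
        (∀ v, v ∈ Ml L Y ↔ v ≠ [] ∧ SP v) ∧
        ∀ v₁ ∈ L B₁, ∀ v₂, SP v₂ → ∀ v₃ ∈ L B₂, SQ (v₁ ++ (v₂ ++ v₃))) :
    ∃ γ : List (Sy α V), γ.length ≤ 8 ∧ (∀ y ∈ γ.getLast?, y.rk = false) ∧
      w ∈ cat (Ml L) γ ∧ ∀ z ∈ cat (Ml L) γ, SQ (a :: z) := by
  rcases h with ⟨B, hB, hv⟩ | ⟨B₁, B₂, w₁, w₂, w₃, Y, SP, he, h1, h2, h3, hY, hs⟩
  · obtain ⟨γ, g1, g2, g3, g4⟩ := hNOR α V L hBS a w B hB
    exact ⟨γ, by omega, g2, g3, fun z hz => hv _ (g4 z hz)⟩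
  · rcases w₁ with _ | ⟨a', w₁'⟩
    · exact absurd h1 (hBS.1 B₁)
    rcases w₃ with _ | ⟨c, w₃'⟩
    · exact absurd h3 (hBS.1 B₂)
    rw [List.cons_append, List.cons.injEq] at he
    obtain ⟨rfl, hw⟩ := he
    obtain ⟨γ₁, a1, a2, a3, a4⟩ := hNOR α V L hBS a w₁' B₁ h1
    obtain ⟨γ₃, b1, b2, b3, b4⟩ := hNOR α V L hBS c w₃' B₂ h3
    obtain ⟨γ₂, c1, c2, c3⟩ : ∃ γ₂ : List (Sy α V), γ₂.length ≤ 1 ∧ w₂ ∈ cat (Ml L) γ₂ ∧
        ∀ z ∈ cat (Ml L) γ₂, SP z := by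
      by_cases hw2 : w₂ = []
      · subst hw2
        refine ⟨[], by simp, (cat_nil _ _).2 rfl, ?_⟩
        intro z hz
        rw [cat_nil] at hz
        rw [hz]
        exact h2
      · refine ⟨[Y], by simp, ?_, ?_⟩
        · rw [cat_single, hY]
          exact ⟨hw2, h2⟩
        · intro z hz
          rw [cat_single, hY] at hz
          exact hz.2
    refine ⟨γ₁ ++ (γ₂ ++ (Sy.t c :: γ₃)), ?_, ?_, ?_, ?_⟩
    · simp only [List.length_append, List.length_cons]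
      omega
    · intro y hy
      have e1 : (γ₁ ++ (γ₂ ++ (Sy.t c :: γ₃))).getLast? = (Sy.t c :: γ₃).getLast? := by
        rw [List.getLast?_append_of_ne_nil _ (by simp), List.getLast?_append_of_ne_nil _ (by simp)]
      rw [e1] at hy
      rcases γ₃ with _ | ⟨d, γ₃'⟩
      · simp only [List.getLast?_singleton, Option.mem_def, Option.some.injEq] at hy
        rw [← hy]
        rfl
      · rw [List.getLast?_cons_cons] at hy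
        exact b2 y hy
    · rw [hw, cat_append]
      refine ⟨w₁', w₂ ++ c :: w₃', rfl, a3, ?_⟩
      rw [cat_append]
      refine ⟨w₂, c :: w₃', rfl, c2, ?_⟩
      rw [cat_cons]
      exact ⟨[c], w₃', rfl, rfl, b3⟩
    · intro z hz
      rw [cat_append] at hz
      obtain ⟨v₁, v', rfl, hv1, hv'⟩ := hz
      rw [cat_append] at hv'
      obtain ⟨v₂, v'', rfl, hv2, hv''⟩ := hv'
      rw [cat_cons] at hv''
      obtain ⟨u, v₃, rfl, hu, hv3⟩ := hv''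
      have hu' : u = [c] := hu
      subst hu'
      exact hs (a :: v₁) (a4 v₁ hv1) v₂ (c3 v₂ hv2) ([c] ++ v₃) (b4 v₃ hv3)

/-- SYM. The rules of the spines. -/
theorem hSYM (hSPL : StSPL) (hSPR : StSPR) (hNOR : StNOR) : StSYM := by
  intro α V L hBS a w X hX
  rcases X with b | X | ⟨X, Y⟩ | ⟨X, Y⟩
  · have h1 : a :: w = [b] := hX
    rw [List.cons.injEq] at h1
    obtain ⟨rfl, rfl⟩ := h1
    refine ⟨[], ⟨by simp, by simp, ?_⟩, (cat_nil _ _).2 rfl⟩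
    intro z hz
    rw [cat_nil] at hz
    rw [hz]
    exact hX
  · obtain ⟨γ, g1, g2, g3, g4⟩ := hNOR α V L hBS a w X hX
    exact ⟨γ, ⟨by omega, fun y hy => ⟨rfl, g2 y hy⟩, g4⟩, g3⟩
  · have h1 : LS L X Y (a :: w) := hX.2
    have h2 := (hSPL α V L hBS).2.2 X Y (a :: w) h1 (by simp)
    obtain ⟨γ, g1, g2, g3, g4⟩ := mid hNOR α V L hBS a w (LS L X Y) (by
      rcases h2 with h2 | ⟨B₁, Z₁, Z₂, B₂, w₁, w₂, w₃, e, k1, k2, k3, k4⟩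
      · exact Or.inl h2
      · exact Or.inr ⟨B₁, B₂, w₁, w₂, w₃, Sy.l Z₁ Z₂, LS L Z₁ Z₂, e, k1, k2, k3,
          fun v => Iff.rfl, k4⟩)
    exact ⟨γ, ⟨g1, fun y hy => ⟨rfl, g2 y hy⟩, fun z hz => ⟨by simp, g4 z hz⟩⟩, g3⟩
  · have h1 : RS L X Y (a :: w) := hX.2
    have h2 := (hSPR α V L hBS).2.2 X Y (a :: w) h1 (by simp)
    obtain ⟨γ, g1, g2, g3, g4⟩ := mid hNOR α V L hBS a w (RS L X Y) (by
      rcases h2 with h2 | ⟨B₁, Z₁, Z₂, B₂, w₁, w₂, w₃, e, k1, k2, k3, k4⟩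
      · exact Or.inl h2
      · exact Or.inr ⟨B₁, B₂, w₁, w₂, w₃, Sy.r Z₁ Z₂, RS L Z₁ Z₂, e, k1, k2, k3,
          fun v => Iff.rfl, k4⟩)
    exact ⟨γ, ⟨g1, fun y hy => ⟨rfl, g2 y hy⟩, fun z hz => ⟨by simp, g4 z hz⟩⟩, g3⟩

end Pool.Agent.Helper87.DR
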